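import Mathlib
import Pool.Agent.H20.SysNorm

open Pointwise

theorem Pool.Agent.Results.MP_c7d465_al.NoBound.result :
    ¬ ∃ n : ℕ, 0 < n ∧ ∀ (G : Type) [Group G] [Finite G] [Group.IsSolvable G],
      ∃ S : Fin n → (p : (Nat.card G).primeFactors) → Sylow p G,
        (∀ i p q, (S i p : Set G) * (S i q : Set G) = (S i q : Set G) * (S i p : Set G)) ∧
        (⨆ k, Subgroup.upperCentralSeries G k) =
          ⨅ i, ⨅ p, Subgroup.normalizer (S i p : Set G) := by
  rintro ⟨n, -, h⟩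
  obtain ⟨S, -, hS⟩ := h (Pool.Agent.H20.SysNorm.G (n + 1))
  obtain ⟨g, hg, hg'⟩ := Pool.Agent.H20.SysNorm.main n _
    (fun p : (Nat.card (Pool.Agent.H20.SysNorm.G (n + 1))).primeFactors => (p : ℕ))
    (fun p => Nat.prime_of_mem_primeFactors p.2) Subtype.val_injective S
  have h1 : g ∈ ⨅ i, ⨅ p, Subgroup.normalizer (S i p : Set (Pool.Agent.H20.SysNorm.G (n + 1))) := by
    simp only [Subgroup.mem_iInf]
    exact hg'
  rw [← hS] at h1
  simp only [Pool.Agent.H20.SysNorm.ucs, iSup_bot, Subgroup.mem_bot] at h1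
  exact hg h1
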